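import Pool.Agent.helper24.CG.Spec

/-!
# The biased clique game (MP_ba8873_co): row GAM
-/

set_option autoImplicit false

namespace Pool.Agent.helper24.CG

open Finset

theorem exists_move_h40 {α : Type} (k : ℕ) (free : Finset α) : ∃ Y, IsMove k free Y := by
  obtain ⟨Y, h1, h2⟩ := Finset.exists_subset_card_eq (Nat.min_le_right k free.card)
  exact ⟨Y, h1, h2⟩

theorem le_of_makerWins_h40 {N m b q : ℕ} {M B : ES N} (h : MakerWins N m b q M B) : q ≤ N := by
  induction h with
  | clique M B K hK _ =>
    rw [← hK]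
    have := Finset.card_le_univ K
    rwa [Fintype.card_fin] at this
  | move M B X _ _ ih =>
    obtain ⟨Y, hY⟩ := exists_move_h40 b (edges N \ (M ∪ X ∪ B))
    exact ih Y hY

theorem makerWins_mono_h40 {N m b q q' : ℕ} {M B : ES N} (hq : q' ≤ q)
    (h : MakerWins N m b q M B) : MakerWins N m b q' M B := by
  induction h with
  | clique M B K hK h =>
    obtain ⟨K', h1, h2⟩ := Finset.exists_subset_card_eq (hK ▸ hq : q' ≤ K.card)
    exact MakerWins.clique M B K' h2 ((Finset.powersetCard_mono h1).trans h)
  | move M B X hX _ ih =>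
    exact MakerWins.move M B X hX (fun Y hY => ih Y hY)

theorem GAM : GAM_stmt := by
  intro N m b
  refine ⟨fun q M B h => le_of_makerWins_h40 h, fun q q' M B hq h => makerWins_mono_h40 hq h, ?_⟩
  have hne : {q | MakerWins N m b q ∅ ∅}.Nonempty := by
    refine ⟨0, ?_⟩
    apply MakerWins.clique ∅ ∅ ∅ Finset.card_empty
    unfold ed
    intro e he
    rw [Finset.mem_powersetCard] at he
    have := Finset.card_le_card he.1
    rw [he.2, Finset.card_empty] at this
    omega
  have hbdd : BddAbove {q | MakerWins N m b q ∅ ∅} := ⟨N, fun q hq => le_of_makerWins_h40 hq⟩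
  exact ⟨Nat.sSup_mem hne hbdd, fun q hq => le_csSup hbdd hq⟩

end Pool.Agent.helper24.CG
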