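import Pool.Agent.helper24.CG.Spec

/-!
# The biased clique game (MP_ba8873_co): row HIT
-/

set_option autoImplicit false

namespace Pool.Agent.helper24.CG

open Finset

open Classical in
theorem HIT (h : HLN_stmt) : HIT_stmt := by
  intro N m q H B 𝓕 ν τ hH hτ hF hv F hFF
  obtain ⟨-, hnd, hsum, -⟩ := h N m H hH
  set S : ES N := rest (B ∪ F) B with hS
  let HH : Finset (ES N) := H.toFinset.filter (fun E => ¬ Disjoint E S)
  have hSc : S.card ≤ q ^ 2 := by
    have h1 : S.card ≤ (ed (B ∪ F)).card := by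
      rw [hS]
      exact Finset.card_le_card Finset.sdiff_subset
    have h2 : (ed (B ∪ F)).card ≤ (B ∪ F).card ^ 2 := by
      unfold ed
      rw [Finset.card_powersetCard]
      exact Nat.choose_le_pow _ _
    exact h1.trans (h2.trans (Nat.pow_le_pow_left (hF F hFF).2 2))
  have hHH : HH.card ≤ q ^ 2 := by
    have h1 : ∑ E ∈ H.toFinset, (E ∩ S).card ≤ S.card := by
      rw [List.sum_toFinset _ hnd]
      exact hsum S
    have h2 : HH.card ≤ ∑ E ∈ H.toFinset, (E ∩ S).card := by
      calc HH.card = ∑ E ∈ HH, 1 := by simp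
        _ ≤ ∑ E ∈ HH, (E ∩ S).card := by
            apply Finset.sum_le_sum
            intro E hE
            have hE2 := (Finset.mem_filter.mp hE).2
            rw [Nat.one_le_iff_ne_zero, Ne, Finset.card_eq_zero]
            intro h0
            exact hE2 (Finset.disjoint_iff_inter_eq_empty.mpr h0)
        _ ≤ ∑ E ∈ H.toFinset, (E ∩ S).card :=
            Finset.sum_le_sum_of_subset (Finset.filter_subset _ _)
    omega
  let W : Finset (Fin N) := HH.biUnion verts
  have hvE : ∀ E ∈ H, (verts E).card ≤ 2 * m := by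
    intro E hE
    obtain ⟨h1, -, h3⟩ := hH.mem E hE
    unfold verts
    have h4 : (E.biUnion id).card ≤ ∑ e ∈ E, (id e).card := Finset.card_biUnion_le
    have h5 : ∑ e ∈ E, (id e).card = ∑ e ∈ E, 2 := by
      apply Finset.sum_congr rfl
      intro e he
      have := h1 he
      unfold edges at this
      rw [Finset.mem_powersetCard] at this
      exact this.2
    rw [h5, Finset.sum_const, smul_eq_mul] at h4
    omega
  have hW : W.card ≤ 2 * m * q ^ 2 := by
    have h1 : W.card ≤ ∑ E ∈ HH, (verts E).card := Finset.card_biUnion_le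
    have h2 : ∑ E ∈ HH, (verts E).card ≤ ∑ E ∈ HH, 2 * m := by
      apply Finset.sum_le_sum
      intro E hE
      exact hvE E (List.mem_toFinset.mp (Finset.mem_filter.mp hE).1)
    rw [Finset.sum_const, smul_eq_mul] at h2
    calc W.card ≤ HH.card * (2 * m) := h1.trans h2
      _ ≤ q ^ 2 * (2 * m) := Nat.mul_le_mul_right _ hHH
      _ = 2 * m * q ^ 2 := by ring
  have hpos : 0 ≤ ∑ G ∈ 𝓕, ν G := Finset.sum_nonneg (fun G hG => (hF G hG).1)
  have hmain : ∑ G ∈ 𝓕.filter (fun G => ∃ E ∈ H, ¬ Disjoint E (rest (B ∪ F) B) ∧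
      ¬ Disjoint E (rest (B ∪ G) B)), ν G ≤ ∑ v ∈ W, ∑ G ∈ 𝓕.filter (fun G => v ∈ G), ν G := by
    have e1 : ∑ v ∈ W, ∑ G ∈ 𝓕.filter (fun G => v ∈ G), ν G =
        ∑ G ∈ 𝓕, ∑ v ∈ W, (if v ∈ G then ν G else 0) := by
      rw [Finset.sum_comm]
      apply Finset.sum_congr rfl
      intro v _
      rw [Finset.sum_filter]
    rw [e1, Finset.sum_filter]
    apply Finset.sum_le_sum
    intro G hG
    have hnn : ∀ v ∈ W, (0 : ℝ) ≤ (if v ∈ G then ν G else 0) := by
      intro v _
      split_ifs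
      · exact (hF G hG).1
      · exact le_rfl
    split_ifs with hcond
    · obtain ⟨E, hE, hd1, hd2⟩ := hcond
      rw [Finset.not_disjoint_iff] at hd2
      obtain ⟨e, heE, heR⟩ := hd2
      unfold rest ed at heR
      rw [Finset.mem_sdiff, Finset.mem_powersetCard, Finset.mem_powersetCard] at heR
      obtain ⟨⟨hsub, hcard⟩, hnot⟩ := heR
      have hnB : ¬ e ⊆ B := fun hsB => hnot ⟨hsB, hcard⟩
      rw [Finset.not_subset] at hnB
      obtain ⟨v, hve, hvB⟩ := hnB
      have hvG : v ∈ G := by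
        rcases Finset.mem_union.mp (hsub hve) with hh | hh
        · exact absurd hh hvB
        · exact hh
      have hvW : v ∈ W := by
        rw [Finset.mem_biUnion]
        refine ⟨E, ?_, ?_⟩
        · exact Finset.mem_filter.mpr ⟨List.mem_toFinset.mpr hE, hd1⟩
        · unfold verts
          rw [Finset.mem_biUnion]
          exact ⟨e, heE, hve⟩
      have := Finset.single_le_sum hnn hvW
      rw [if_pos hvG] at this
      exact this
    · exact Finset.sum_nonneg hnn
  refine hmain.trans ?_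
  calc ∑ v ∈ W, ∑ G ∈ 𝓕.filter (fun G => v ∈ G), ν G
      ≤ ∑ v ∈ W, τ * ∑ G ∈ 𝓕, ν G := Finset.sum_le_sum (fun v _ => hv v)
    _ = (W.card : ℝ) * (τ * ∑ G ∈ 𝓕, ν G) := by rw [Finset.sum_const, nsmul_eq_mul]
    _ ≤ (2 * m * (q : ℝ) ^ 2) * (τ * ∑ G ∈ 𝓕, ν G) := by
        apply mul_le_mul_of_nonneg_right _ (mul_nonneg hτ hpos)
        exact_mod_cast hW
    _ = 2 * m * (q : ℝ) ^ 2 * τ * ∑ G ∈ 𝓕, ν G := by ring

end Pool.Agent.helper24.CG
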